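import Pool.Agent.H84.S2.TgD

/-!
# s2l_modules, row D_KER: a form with the equation, by counting
-/

set_option autoImplicit false

namespace Pool.Agent.H68.S2

open MvPolynomial SC
open Pool.Agent.H27.LV (ge deg poleOrder canDeg)
open Pool.Agent.H84.SM (cr dt dp)
open Pool.Agent.H92.SF (Q2)
open Pool.Agent.H3.SF (Itg Bb BB Hm eu grd hes Sfc Crd Cnn Crf Prm nv Vl VQ evc FE E)
open Pool.Agent.H84.SF
open Pool.Agent.H3.S2
open Pool.Agent.H84.S2

/-- exponents of the monomials of degree `n` -/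
noncomputable def Ix (n : ℕ) : Finset (Fin 3 →₀ ℕ) := Finset.finsuppAntidiag Finset.univ n

theorem mem_Ix {n : ℕ} {a : Fin 3 →₀ ℕ} : a ∈ Ix n ↔ ∑ i, a i = n := by
  unfold Ix
  rw [Finset.mem_finsuppAntidiag]
  constructor
  · exact fun h => h.1
  · exact fun h => ⟨h, Finset.subset_univ _⟩

theorem two_choose (m : ℕ) : 2 * (m + 2).choose 2 = (m + 2) * (m + 1) := by
  induction m with
  | zero => rfl
  | succ m ih =>
    have h : (m + 1 + 2).choose 2 = (m + 2).choose 1 + (m + 2).choose 2 := rfl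
    rw [h, mul_add, ih, Nat.choose_one_right]
    ring

theorem card_Ix (n : ℕ) : 2 * (Ix n).card = (n + 2) * (n + 1) := by
  unfold Ix
  rw [Finset.card_finsuppAntidiag_nat_eq_choose, Finset.card_univ, Fintype.card_fin,
    show 3 + n - 1 = n + 2 by omega, Nat.choose_symm_of_eq_add (by rfl : n + 2 = n + 2), two_choose]

section

variable {k F : Type} [Field k] [Field F] [Algebra k F] {W W' : Submodule k F}

/-- the coefficient -/
noncomputable def bb {n : ℕ} (b : Ix n → W) (a : Fin 3 →₀ ℕ) : F :=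
  if h : a ∈ Ix n then (b ⟨a, h⟩ : F) else 0

theorem bb_pos {n : ℕ} (b : Ix n → W) {a : Fin 3 →₀ ℕ} (h : a ∈ Ix n) :
    bb b a = (b ⟨a, h⟩ : F) := dif_pos h

theorem bb_neg {n : ℕ} (b : Ix n → W) {a : Fin 3 →₀ ℕ} (h : a ∉ Ix n) : bb b a = 0 := dif_neg h

theorem bb_mem {n : ℕ} (b : Ix n → W) (a : Fin 3 →₀ ℕ) : bb b a ∈ W := by
  by_cases h : a ∈ Ix n
  · rw [bb_pos b h]
    exact (b ⟨a, h⟩).2
  · rw [bb_neg b h]
    exact W.zero_mem

theorem bb_add {n : ℕ} (b c : Ix n → W) (a : Fin 3 →₀ ℕ) : bb (b + c) a = bb b a + bb c a := by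
  by_cases h : a ∈ Ix n
  · rw [bb_pos _ h, bb_pos _ h, bb_pos _ h]
    rfl
  · rw [bb_neg _ h, bb_neg _ h, bb_neg _ h, add_zero]

theorem bb_smul {n : ℕ} (r : k) (b : Ix n → W) (a : Fin 3 →₀ ℕ) : bb (r • b) a = r • bb b a := by
  by_cases h : a ∈ Ix n
  · rw [bb_pos _ h, bb_pos _ h]
    rfl
  · rw [bb_neg _ h, bb_neg _ h, smul_zero]

/-- the form with given coefficients -/
noncomputable def Bf {n : ℕ} (b : Ix n → W) : MvPolynomial (Fin 3) F :=
  ∑ a : Ix n, monomial (a : Fin 3 →₀ ℕ) (b a : F)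

theorem coeff_Bf {n : ℕ} (b : Ix n → W) (a : Fin 3 →₀ ℕ) : (Bf b).coeff a = bb b a := by
  classical
  unfold Bf
  rw [coeff_sum]
  simp only [coeff_monomial]
  by_cases h : a ∈ Ix n
  · rw [bb_pos b h, Finset.sum_eq_single (⟨a, h⟩ : Ix n)]
    · rw [if_pos rfl]
    · intro c _ hc
      rw [if_neg fun h1 => hc (Subtype.ext h1)]
    · intro h1
      exact absurd (Finset.mem_univ _) h1
  · rw [bb_neg b h]
    refine Finset.sum_eq_zero fun c _ => ?_
    rw [if_neg]
    intro h1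
    exact h (h1 ▸ c.2)

theorem hom_Bf {n : ℕ} (b : Ix n → W) : (Bf b).IsHomogeneous n := by
  unfold Bf
  refine IsHomogeneous.sum _ _ _ fun a _ => ?_
  refine isHomogeneous_monomial _ ?_
  rw [Finsupp.degree_eq_sum]
  exact mem_Ix.1 a.2

/-- the equations -/
noncomputable def Lm (γ : Fin 3 → F) (hγ : ∀ l, ∀ w ∈ W, γ l * w ∈ W') (n : ℕ) :
    (Ix (n + 1) → W) →ₗ[k] (Ix n → W') where
  toFun b a := ⟨∑ l, (a.1 l + 1) • (γ l * bb b (a.1 + Finsupp.single l 1)),
    W'.sum_mem fun l _ => nsmul_mem (hγ l _ (bb_mem b _)) _⟩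
  map_add' b c := by
    funext a
    apply Subtype.ext
    show ∑ l, (a.1 l + 1) • (γ l * bb (b + c) (a.1 + Finsupp.single l 1)) =
      ∑ l, (a.1 l + 1) • (γ l * bb b (a.1 + Finsupp.single l 1)) +
      ∑ l, (a.1 l + 1) • (γ l * bb c (a.1 + Finsupp.single l 1))
    rw [← Finset.sum_add_distrib]
    refine Finset.sum_congr rfl fun l _ => ?_
    rw [bb_add, mul_add, smul_add]
  map_smul' r b := by
    funext a
    apply Subtype.ext
    show ∑ l, (a.1 l + 1) • (γ l * bb (r • b) (a.1 + Finsupp.single l 1)) =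
      r • ∑ l, (a.1 l + 1) • (γ l * bb b (a.1 + Finsupp.single l 1))
    rw [Finset.smul_sum]
    refine Finset.sum_congr rfl fun l _ => ?_
    rw [bb_smul, mul_smul_comm, smul_comm]

theorem eqn_Bf (γ : Fin 3 → F) (hγ : ∀ l, ∀ w ∈ W, γ l * w ∈ W') (n : ℕ) (b : Ix (n + 1) → W)
    (h : Lm γ hγ n b = 0) : ∑ l, C (γ l) * pderiv l (Bf b) = 0 := by
  ext a
  rw [coeff_sum, coeff_zero]
  have h1 : ∀ l, coeff a (C (γ l) * pderiv l (Bf b)) =
      (a l + 1) • (γ l * bb b (a + Finsupp.single l 1)) := by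
    intro l
    rw [coeff_C_mul, coeff_pderiv, coeff_Bf, nsmul_eq_mul]
    push_cast
    ring
  rw [Finset.sum_congr rfl fun l _ => h1 l]
  by_cases ha : a ∈ Ix n
  · exact congrArg Subtype.val (congrFun h ⟨a, ha⟩)
  · refine Finset.sum_eq_zero fun l _ => ?_
    rw [bb_neg, mul_zero, smul_zero]
    intro h2
    apply ha
    rw [mem_Ix] at h2 ⊢
    have h3 : ∑ i, (a + Finsupp.single l 1 : Fin 3 →₀ ℕ) i = ∑ i, a i + 1 := by
      simp only [Finsupp.add_apply, Finset.sum_add_distrib]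
      congr 1
      rw [Finset.sum_eq_single l]
      · exact Finsupp.single_eq_same
      · intro i _ hi
        exact Finsupp.single_eq_of_ne hi
      · intro h4
        exact absurd (Finset.mem_univ _) h4
    omega

theorem Bf_ne {n : ℕ} {b : Ix n → W} (hb : b ≠ 0) : Bf b ≠ 0 := by
  intro h
  apply hb
  funext a
  apply Subtype.ext
  have h1 := coeff_Bf b a
  rw [h, coeff_zero, bb_pos b a.2] at h1
  exact h1.symm

end

theorem pf_KER : T_KER := by
  intro k F _ _ _ _ W W' γ n hW hW' hγ hlt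
  rcases n with _ | n
  · have h1 : 0 < Module.finrank k W := by omega
    have h2 : W ≠ ⊥ := by
      rintro rfl
      simp at h1
    obtain ⟨w, hw, hw0⟩ := Submodule.exists_mem_ne_zero_of_ne_bot h2
    refine ⟨C w, ?_, isHomogeneous_C _ _, ?_, ?_⟩
    · rw [Ne, C_eq_zero]
      exact hw0
    · intro a
      rw [coeff_C]
      split_ifs
      · exact hw
      · exact W.zero_mem
    · refine Finset.sum_eq_zero fun l _ => ?_
      rw [pderiv_C, mul_zero]
  · have hker : LinearMap.ker (Lm γ hγ n) ≠ ⊥ := by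
      refine LinearMap.ker_ne_bot_of_finrank_lt ?_
      rw [Module.finrank_pi_fintype, Module.finrank_pi_fintype, Finset.sum_const,
        Finset.sum_const, Finset.card_univ, Finset.card_univ, Fintype.card_coe, Fintype.card_coe,
        smul_eq_mul, smul_eq_mul]
      have h1 := card_Ix n
      have h2 := card_Ix (n + 1)
      have h3 : 2 * ((Ix n).card * Module.finrank k W') <
          2 * ((Ix (n + 1)).card * Module.finrank k W) := by
        rw [← mul_assoc, ← mul_assoc, h1, h2]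
        calc (n + 2) * (n + 1) * Module.finrank k W' =
            (n + 2) * ((n + 1) * Module.finrank k W') := by ring
          _ < (n + 2) * ((n + 1 + 2) * Module.finrank k W) :=
            Nat.mul_lt_mul_of_pos_left hlt (by omega)
          _ = (n + 1 + 2) * (n + 1 + 1) * Module.finrank k W := by ring
      omega
    obtain ⟨b, hb, hb0⟩ := Submodule.exists_mem_ne_zero_of_ne_bot hker
    refine ⟨Bf b, Bf_ne hb0, hom_Bf b, ?_, eqn_Bf γ hγ n b (LinearMap.mem_ker.1 hb)⟩
    intro a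
    rw [coeff_Bf]
    exact bb_mem b a

end Pool.Agent.H68.S2
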