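import Pool.Agent.H84.S2.TgD

/-!
# s2l_modules, row D_VMU: multiplication with a form which vanishes at the points
-/

set_option autoImplicit false

namespace Pool.Agent.H68.S2

open MvPolynomial SC
open Pool.Agent.H27.LV (ge deg poleOrder canDeg)
open Pool.Agent.H84.SM (cr dt dp)
open Pool.Agent.H92.SF (Q2)
open Pool.Agent.H3.SF (Itg Bb BB Hm eu grd hes Sfc Crd Cnn Crf Prm nv Vl VQ evc FE E)
open Pool.Agent.H84.SF
open Pool.Agent.H3.S2
open Pool.Agent.H84.S2

theorem pf_VMU : T_VMU := by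
  intro k F σ _ _ _ _ X T hT d e h f hf h0 v hv
  unfold Wf at hv ⊢
  rw [Submodule.mem_inf] at hv ⊢
  obtain ⟨hv1, hv2⟩ := hv
  refine ⟨?_, ?_⟩
  · obtain ⟨g, hg, rfl⟩ := hv1
    refine ⟨g * f, ?_, ?_⟩
    · have hg' : g.IsHomogeneous e := hg
      exact hg'.mul hf
    · show aeval X (g * f) = aeval X f * aeval X g
      rw [map_mul, mul_comm]
  · rw [Submodule.mem_iInf] at hv2 ⊢
    intro s
    have h2 := hv2 s
    rw [Submodule.mem_iInf] at h2 ⊢
    intro hs
    have h3 : v ∈ Vo X s e h := h2 hs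
    intro L0 hL0 hs0
    obtain ⟨z, hz, h4⟩ := h3 L0 hL0 hs0
    have hne : aeval X L0 ≠ 0 := fun h5 => hs0 ((hT s hs).pt L0 h5)
    have hnd : aeval X L0 ^ d ≠ 0 := pow_ne_zero _ hne
    have hrep : Rep X (aeval X f / aeval X L0 ^ d) d f (L0 ^ d) := by
      refine ⟨hf, ?_, ?_⟩
      · have h5 := hL0.pow d
        rwa [one_mul] at h5
      · rw [map_pow, div_mul_cancel₀ _ hnd]
    have hev : eval s (L0 ^ d) ≠ 0 := by
      rw [map_pow]
      exact pow_ne_zero _ hs0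
    let y : Os X s := ⟨aeval X f / aeval X L0 ^ d, d, f, L0 ^ d, hrep, hev⟩
    have hy : y ∈ Mx X s := Ideal.subset_span ⟨d, f, L0 ^ d, hrep, hev, h0 s hs⟩
    refine ⟨z * y, ?_, ?_⟩
    · rw [pow_succ]
      exact Ideal.mul_mem_mul hz hy
    · show (z : F) * (aeval X f / aeval X L0 ^ d) * aeval X L0 ^ (e + d) = aeval X f * v
      rw [← h4, pow_add]
      field_simp

end Pool.Agent.H68.S2
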